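import Pool.Agent.R818.Functors.X4Main

/-!
# A finitary skeletal normal functor which is not finitely square-skeletal

The functor glues two copies of `X ^ 4` along the square `X ^ 2`, embedded by
`(x, y) ↦ (x, x, y, y)`.
-/

namespace Pool.Agent.Results.MP_2f5a6b_gt.NotSquareSkeletal

open Pool.Agent.R818.Functors

theorem result : ∃ F : CFun, IsNormal F ∧ Finitary F ∧ SkeletalFunctor F ∧
    ¬ FinitelySquareSkeletal F ∧ ¬ SquareSkeletal F :=
  ⟨X4.F, X4.normal, X4.finitary, X4.skeletal, X4.not_finitelySquareSkeletal,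
    X4.not_squareSkeletal⟩

end Pool.Agent.Results.MP_2f5a6b_gt.NotSquareSkeletal
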